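import Pool.Agent.Lib.MP_7d449a_al.AM.Sub

/-!
# MP_7d449a_al, cocompact subgroups and boundaries

Let `G = C P` with a compact set `C` and a subgroup `P`, and let `X` be a boundary of `G`, such that
every element of `G` normalises a compact open subgroup or its contraction groups act trivially on
`X`. Then `X` is a boundary of `P`.
-/

set_option autoImplicit false

open Filter Topology MeasureTheory MeasureTheory.Measure
open scoped Pointwise ENNReal NNReal CompactlySupported

namespace Pool.Agent.Lib.MP7d449a.AM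

open Pool.Agent.Lib.MP7d449a.GP

universe u v

section

variable {X : Type v} [TopologicalSpace X] [CompactSpace X]

theorem bdd (f : C(X, ℝ)) : BddAbove (Set.range f) :=
  ⟨‖f‖, by rintro _ ⟨x, rfl⟩; exact f.apply_le_norm x⟩

/-- The maximum is sublinear. -/
theorem sl_max [Nonempty X] : SL fun f : C(X, ℝ) => ⨆ x, f x := by
  refine ⟨fun c hc f => ?_, fun f g => ?_, fun f M hM => ciSup_le hM⟩
  · show ⨆ x, c * f x = c * ⨆ x, f x
    rw [Real.mul_iSup_of_nonneg hc.le]
  · exact ciSup_le fun x => add_le_add (le_ciSup (bdd f) x) (le_ciSup (bdd g) x)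

omit [CompactSpace X] in
theorem max_tr {G : Type u} [Group G] [TopologicalSpace G] [MulAction G X] [ContinuousSMul G X]
    (g : G) (f : C(X, ℝ)) : ⨆ x, tr g f x = ⨆ x, f x :=
  (MulAction.toPerm g : Equiv.Perm X).iSup_comp (g := fun x => f x)

end

/-- Mass close to one near `x` makes the integral close to `f x`. -/
theorem le_of_mass {X : Type v} [TopologicalSpace X] [CompactSpace X] [MeasurableSpace X]
    [BorelSpace X] (ν : Measure X) [IsProbabilityMeasure ν] (f : C(X, ℝ)) {U : Set X}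
    (hU : IsOpen U) {a r : ℝ} (hf : ∀ x ∈ U, a ≤ f x) (hr : ENNReal.ofReal r ≤ ν U) :
    a - (|a| + ‖f‖) * (1 - r) ≤ ∫ x, f x ∂ν := by
  have hi : Integrable (fun x => f x) ν :=
    f.continuous.integrable_of_hasCompactSupport (HasCompactSupport.of_compactSpace _)
  have h1 : ∀ x, a - (|a| + ‖f‖) * Uᶜ.indicator 1 x ≤ f x := by
    intro x
    by_cases hx : x ∈ U
    · rw [Set.indicator_of_notMem (show x ∉ Uᶜ from fun h => h hx)]
      linarith [hf x hx]
    · rw [Set.indicator_of_mem (show x ∈ Uᶜ from hx)]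
      have h2 := f.neg_norm_le_apply x
      have h3 := le_abs_self a
      simp only [Pi.one_apply, mul_one]
      linarith
  have hUc : MeasurableSet Uᶜ := hU.measurableSet.compl
  have hi2 : Integrable (fun x => (|a| + ‖f‖) * Uᶜ.indicator (1 : X → ℝ) x) ν :=
    ((integrable_const (1 : ℝ)).indicator hUc).const_mul _
  have h2 : ∫ x, (a - (|a| + ‖f‖) * Uᶜ.indicator (1 : X → ℝ) x) ∂ν ≤ ∫ x, f x ∂ν :=
    integral_mono ((integrable_const a).sub hi2) hi h1
  have h3 : ∫ x, (a - (|a| + ‖f‖) * Uᶜ.indicator (1 : X → ℝ) x) ∂ν =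
      a - (|a| + ‖f‖) * ν.real Uᶜ := by
    rw [integral_sub (integrable_const a) hi2, integral_const_mul, integral_indicator_one hUc]
    simp
  have h4 : ν.real Uᶜ ≤ 1 - r := by
    have h5 : ν.real U + ν.real Uᶜ = 1 := by
      rw [probReal_add_probReal_compl hU.measurableSet]
    have h6 : r ≤ ν.real U := by
      refine (ENNReal.ofReal_le_iff_le_toReal (measure_ne_top ν U)).1 hr
    linarith
  rw [h3] at h2
  have h5 : (|a| + ‖f‖) * ν.real Uᶜ ≤ (|a| + ‖f‖) * (1 - r) :=
    mul_le_mul_of_nonneg_left h4 (by positivity)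
  linarith

/-- A boundary of `G` is a boundary of `P`. -/
theorem bdy {G : Type u} [Group G] [TopologicalSpace G] [IsTopologicalGroup G]
    [LocallyCompactSpace G] [TotallyDisconnectedSpace G] [T2Space G] (P : Subgroup G) {C : Set G}
    (hC : IsCompact C) (hCP : ∀ g : G, ∃ c ∈ C, ∃ p ∈ P, g = c * p) {X : Type v}
    [TopologicalSpace X] [CompactSpace X] [T2Space X] [MeasurableSpace X] [BorelSpace X]
    [MulAction G X] [ContinuousSMul G X] (hX : Tame G X)
    (hG : ∀ μ : Measure X, IsProbabilityMeasure μ → μ.Regular → ∀ U : Set X, IsOpen U →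
      U.Nonempty → ∀ r : ℝ≥0∞, r < 1 → ∃ g : G, r < μ ((fun x => g • x) ⁻¹' U))
    (μ : Measure X) [IsProbabilityMeasure μ] {U : Set X} (hU : IsOpen U)
    (hUn : U.Nonempty) {r : ℝ≥0∞} (hr : r < 1) : ∃ g ∈ P, r < μ ((fun x => g • x) ⁻¹' U) := by
  have hne : Nonempty X := ⟨hUn.some⟩
  have hint : ∀ f : C(X, ℝ), Integrable (fun x => f x) μ := fun f =>
    f.continuous.integrable_of_hasCompactSupport (HasCompactSupport.of_compactSpace _)
  have hb : ∀ f : C(X, ℝ), BddAbove (Set.range fun b : P => ∫ x, tr (b : G) f x ∂μ) := by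
    intro f
    refine ⟨‖f‖, ?_⟩
    rintro _ ⟨b, rfl⟩
    have h1 : ∫ x, tr (b : G) f x ∂μ ≤ ∫ x, ‖f‖ ∂μ :=
      integral_mono (hint _) (integrable_const _) fun x => f.apply_le_norm _
    simpa using h1
  let σ : C(X, ℝ) → ℝ := fun f => ⨆ b : P, ∫ x, tr (b : G) f x ∂μ
  have hσ : SL σ := by
    refine ⟨fun c hc f => ?_, fun f g => ?_, fun f M hM => ?_⟩
    · show ⨆ b : P, ∫ x, c * tr (b : G) f x ∂μ = c * ⨆ b : P, ∫ x, tr (b : G) f x ∂μ
      rw [Real.mul_iSup_of_nonneg hc.le]
      congr 1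
      funext b
      exact integral_const_mul _ _
    · refine ciSup_le fun b => ?_
      have h1 : ∫ x, tr (b : G) (f + g) x ∂μ = ∫ x, tr (b : G) f x ∂μ + ∫ x, tr (b : G) g x ∂μ :=
        integral_add (hint (tr (b : G) f)) (hint (tr (b : G) g))
      rw [h1]
      exact add_le_add (le_ciSup (hb f) b) (le_ciSup (hb g) b)
    · refine ciSup_le fun b => ?_
      have h1 : ∫ x, tr (b : G) f x ∂μ ≤ ∫ x, M ∂μ :=
        integral_mono (hint _) (integrable_const _) fun x => hM _
      simpa using h1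
  have hσP : ∀ b ∈ P, ∀ f, σ (tr b f) = σ f := by
    intro b hb f
    show ⨆ c : P, ∫ x, tr (c : G) (tr b f) x ∂μ = ⨆ c : P, ∫ x, tr (c : G) f x ∂μ
    rw [← (Equiv.mulLeft (⟨b, hb⟩ : P)).iSup_comp (g := fun c : P => ∫ x, tr (c : G) f x ∂μ)]
    congr 1
    funext c
    show ∫ x, tr (c : G) (tr b f) x ∂μ = ∫ x, tr (b * (c : G)) f x ∂μ
    rw [tr_mul]
  obtain ⟨p', hp', hinv, hmain, -, -⟩ := average P hC hCP hX hσ hσP
  obtain ⟨hle, heq⟩ := hmain (fun f => ⨆ x, f x) (fun g f => max_tr g f)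
    (fun f => hσ.le _ _ fun x => le_ciSup (bdd f) x)
  -- the average is the maximum
  have hmax : ∀ f, p' f = ⨆ x, f x := by
    intro f
    refine le_antisymm (hle f) ?_
    obtain ⟨l, hl⟩ := hp'.exists_linear
    obtain ⟨ν, hν1, hν2, hν⟩ := hp'.exists_measure (l := l) (map_add l)
      (fun c f => by simp) hl
    refine ciSup_le fun x => ?_
    refine le_of_forall_pos_lt_add fun δ hδ => ?_
    let K : ℝ := |f x - δ / 2| + ‖f‖
    have hK : 0 ≤ K := by positivity
    let V : Set X := {y | f x - δ / 2 < f y}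
    have hV : IsOpen V := isOpen_lt continuous_const f.continuous
    have hVn : V.Nonempty := ⟨x, by show f x - δ / 2 < f x; linarith⟩
    let r' : ℝ := 1 - δ / (4 * (K + 1))
    have hr' : ENNReal.ofReal r' < 1 := by
      rw [ENNReal.ofReal_lt_one]
      have : 0 < δ / (4 * (K + 1)) := by positivity
      show 1 - δ / (4 * (K + 1)) < 1
      linarith
    obtain ⟨g, hg⟩ := hG ν hν1 hν2 V hV hVn _ hr'
    have hpre : IsOpen ((fun x => g • x) ⁻¹' V) := hV.preimage (continuous_const_smul g)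
    have h1 := le_of_mass ν (tr g f) hpre (a := f x - δ / 2) (r := r')
      (fun y hy => (show f x - δ / 2 < f (g • y) from hy).le) hg.le
    have hn : ‖tr g f‖ ≤ ‖f‖ := by
      rw [ContinuousMap.norm_le _ (norm_nonneg f)]
      intro y
      exact f.norm_coe_le_norm _
    have h2 : ∫ y, tr g f y ∂ν ≤ p' f := by
      rw [hν, ← hinv g f]
      exact hl _
    have h3 : (|f x - δ / 2| + ‖tr g f‖) * (1 - r') ≤ δ / 4 := by
      have h4 : 1 - r' = δ / (4 * (K + 1)) := by
        show 1 - (1 - δ / (4 * (K + 1))) = _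
        ring
      rw [h4]
      have h5 : |f x - δ / 2| + ‖tr g f‖ ≤ K + 1 := by
        show _ ≤ |f x - δ / 2| + ‖f‖ + 1
        linarith
      calc (|f x - δ / 2| + ‖tr g f‖) * (δ / (4 * (K + 1)))
          ≤ (K + 1) * (δ / (4 * (K + 1))) := mul_le_mul_of_nonneg_right h5 (by positivity)
        _ = δ / 4 := by field_simp
    linarith
  have hσmax : ∀ f, σ f = ⨆ x, f x := fun f => heq f (hmax f)
  -- a function under the open set
  obtain ⟨x₀, hx₀⟩ := hUn
  obtain ⟨f, hf0, hf1, hf⟩ := exists_continuous_zero_one_of_isClosed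
    (hU.isClosed_compl) (isClosed_singleton (x := x₀))
    (by rw [Set.disjoint_singleton_right]; exact fun h => h hx₀)
  have hfx : f x₀ = 1 := hf1 rfl
  have h1 : (1 : ℝ) ≤ σ f := by
    rw [hσmax, ← hfx]
    exact le_ciSup (bdd f) x₀
  have hr1 : r.toReal < 1 := by
    have := (ENNReal.toReal_lt_toReal (ne_top_of_lt hr) ENNReal.one_ne_top).2 hr
    simpa using this
  have h2 : r.toReal < ⨆ b : P, ∫ x, tr (b : G) f x ∂μ := lt_of_lt_of_le hr1 h1
  obtain ⟨b, hb'⟩ := exists_lt_of_lt_ciSup h2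
  refine ⟨b, b.2, ?_⟩
  have hpre : IsOpen ((fun x => (b : G) • x) ⁻¹' U) := hU.preimage (continuous_const_smul (b : G))
  have h3 : ∫ x, tr (b : G) f x ∂μ ≤ μ.real ((fun x => (b : G) • x) ⁻¹' U) := by
    rw [← integral_indicator_one hpre.measurableSet]
    refine integral_mono (hint _) ((integrable_const (1 : ℝ)).indicator hpre.measurableSet)
      fun x => ?_
    by_cases hx : (b : G) • x ∈ U
    · rw [Set.indicator_of_mem (show x ∈ (fun x => (b : G) • x) ⁻¹' U from hx)]
      exact (hf _).2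
    · rw [Set.indicator_of_notMem (show x ∉ (fun x => (b : G) • x) ⁻¹' U from hx)]
      exact (hf0 hx).le
  have h4 : r.toReal < (μ ((fun x => (b : G) • x) ⁻¹' U)).toReal := lt_of_lt_of_le hb' h3
  exact (ENNReal.toReal_lt_toReal (ne_top_of_lt hr) (measure_ne_top _ _)).1 h4

end Pool.Agent.Lib.MP7d449a.AM
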