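import Pool.Agent.Lib.MP_7d449a_al.AM.Uni

/-!
# MP_7d449a_al, cocompact subgroups: Weil's formula

Integration over the quotient by a closed subgroup, by means of a weight, if Haar measure of the group
is right invariant and that of the subgroup is invariant under inversion.
-/

set_option autoImplicit false

open Filter Topology MeasureTheory MeasureTheory.Measure
open scoped Pointwise ENNReal NNReal

namespace Pool.Agent.Lib.MP7d449a.AM

open Pool.Agent.Lib.MP7d449a.GP

universe u

/-- A function invariant under left translations by an open subgroup is continuous. -/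
theorem cont_left {G : Type u} [Group G] [TopologicalSpace G] [IsTopologicalGroup G]
    {f : G → ℝ} {V : Subgroup G} (hV : IsOpen (V : Set G)) (h : ∀ v ∈ V, ∀ x, f (v * x) = f x) :
    Continuous f := by
  apply IsLocallyConstant.continuous
  rw [IsLocallyConstant.iff_eventually_eq]
  intro x
  have h1 : {y : G | y * x⁻¹ ∈ (V : Set G)} ∈ 𝓝 x := by
    have h2 : Continuous fun y : G => y * x⁻¹ := by fun_prop
    refine (hV.preimage h2).mem_nhds ?_
    show x * x⁻¹ ∈ V
    rw [mul_inv_cancel]
    exact V.one_mem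
  filter_upwards [h1] with y hy
  have e : y = (y * x⁻¹) * x := by group
  rw [e]
  exact h _ hy x

section

variable {Q : Type u} [Group Q] [TopologicalSpace Q] [IsTopologicalGroup Q]
  [LocallyCompactSpace Q] [T2Space Q] [MeasurableSpace Q] [BorelSpace Q]

/-- Independence of the weight. -/
theorem weight {P : Subgroup Q} (hP : IsClosed (P : Set Q)) [LocallyCompactSpace P]
    (hr : (haar : Measure Q).IsMulRightInvariant) (hi : (haar : Measure P).IsInvInvariant)
    {b₁ b₂ φ : Q → ℝ} (h1 : Continuous b₁) (h1c : HasCompactSupport b₁) (h2 : Continuous b₂)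
    (h2c : HasCompactSupport b₂) (hφ : Continuous φ) (hφP : ∀ g : Q, ∀ p : P, φ (g * p) = φ g)
    (e1 : ∀ g : Q, ∫ p : P, b₁ (g * p) ∂haar = 1) (e2 : ∀ g : Q, ∫ p : P, b₂ (g * p) ∂haar = 1) :
    ∫ g, b₁ g * φ g ∂haar = ∫ g, b₂ g * φ g ∂haar := by
  have hK : IsCompact ((Subtype.val : P → Q) ⁻¹' ((tsupport b₁)⁻¹ * tsupport b₂)) := by
    refine hP.isClosedEmbedding_subtypeVal.isCompact_preimage ?_
    exact h1c.isCompact.inv.mul h2c.isCompact
  calc ∫ g, b₁ g * φ g ∂haar
      = ∫ g, (∫ p : P, b₁ g * φ g * b₂ (g * p) ∂haar) ∂haar := by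
        refine integral_congr_ae (Eventually.of_forall fun g => ?_)
        show b₁ g * φ g = ∫ p : P, b₁ g * φ g * b₂ (g * p) ∂haar
        rw [integral_const_mul, e2, mul_one]
    _ = ∫ p : P, (∫ g, b₁ g * φ g * b₂ (g * p) ∂haar) ∂haar := by
        refine integral_integral_swap_of_hasCompactSupport
          (f := fun (g : Q) (p : P) => b₁ g * φ g * b₂ (g * p)) ?_ ?_
        · show Continuous fun x : Q × P => b₁ x.1 * φ x.1 * b₂ (x.1 * x.2)
          fun_prop
        · refine HasCompactSupport.intro (K := tsupport b₁ ×ˢ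
            ((Subtype.val : P → Q) ⁻¹' ((tsupport b₁)⁻¹ * tsupport b₂)))
            (h1c.isCompact.prod hK) ?_
          rintro ⟨g, p⟩ hx
          show b₁ g * φ g * b₂ (g * p) = 0
          by_cases hg : g ∈ tsupport b₁
          · by_cases hgp : g * (p : Q) ∈ tsupport b₂
            · exfalso
              apply hx
              refine ⟨hg, ?_⟩
              show (p : Q) ∈ (tsupport b₁)⁻¹ * tsupport b₂
              exact Set.mem_mul.2 ⟨g⁻¹, Set.inv_mem_inv.2 hg, g * p, hgp, by group⟩
            · rw [image_eq_zero_of_notMem_tsupport hgp, mul_zero]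
          · rw [image_eq_zero_of_notMem_tsupport hg, zero_mul, zero_mul]
    _ = ∫ p : P, (∫ g, b₁ (g * (p : Q)⁻¹) * φ g * b₂ g ∂haar) ∂haar := by
        refine integral_congr_ae (Eventually.of_forall fun p => ?_)
        show ∫ g, b₁ g * φ g * b₂ (g * p) ∂haar = ∫ g, b₁ (g * (p : Q)⁻¹) * φ g * b₂ g ∂haar
        rw [← integral_mul_right_eq_self (μ := (haar : Measure Q))
          (fun g => b₁ (g * (p : Q)⁻¹) * φ g * b₂ g) (p : Q)]
        refine integral_congr_ae (Eventually.of_forall fun g => ?_)
        show b₁ g * φ g * b₂ (g * p) = b₁ (g * p * (p : Q)⁻¹) * φ (g * p) * b₂ (g * p)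
        rw [hφP, mul_inv_cancel_right]
    _ = ∫ g, (∫ p : P, b₁ (g * (p : Q)⁻¹) * φ g * b₂ g ∂haar) ∂haar := by
        symm
        refine integral_integral_swap_of_hasCompactSupport
          (f := fun (g : Q) (p : P) => b₁ (g * (p : Q)⁻¹) * φ g * b₂ g) ?_ ?_
        · show Continuous fun x : Q × P => b₁ (x.1 * (x.2 : Q)⁻¹) * φ x.1 * b₂ x.1
          fun_prop
        · refine HasCompactSupport.intro (K := tsupport b₂ ×ˢ
            ((Subtype.val : P → Q) ⁻¹' ((tsupport b₁)⁻¹ * tsupport b₂)))
            (h2c.isCompact.prod hK) ?_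
          rintro ⟨g, p⟩ hx
          show b₁ (g * (p : Q)⁻¹) * φ g * b₂ g = 0
          by_cases hg : g ∈ tsupport b₂
          · by_cases hgp : g * (p : Q)⁻¹ ∈ tsupport b₁
            · exfalso
              apply hx
              refine ⟨hg, ?_⟩
              show (p : Q) ∈ (tsupport b₁)⁻¹ * tsupport b₂
              exact Set.mem_mul.2 ⟨(g * (p : Q)⁻¹)⁻¹, Set.inv_mem_inv.2 hgp, g, hg, by group⟩
            · rw [image_eq_zero_of_notMem_tsupport hgp, zero_mul, zero_mul]
          · rw [image_eq_zero_of_notMem_tsupport hg, mul_zero]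
    _ = ∫ g, b₂ g * φ g ∂haar := by
        refine integral_congr_ae (Eventually.of_forall fun g => ?_)
        show ∫ p : P, b₁ (g * (p : Q)⁻¹) * φ g * b₂ g ∂haar = b₂ g * φ g
        have h3 : ∫ p : P, b₁ (g * (p : Q)⁻¹) ∂haar = 1 := by
          rw [← e1 g, ← integral_inv_eq_self (fun p : P => b₁ (g * p)) (haar : Measure P)]
          rfl
        have h4 : (fun p : P => b₁ (g * (p : Q)⁻¹) * φ g * b₂ g) =
            fun p : P => (φ g * b₂ g) * b₁ (g * (p : Q)⁻¹) := by
          funext p
          ring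
        rw [h4, integral_const_mul, h3]
        ring

end

end Pool.Agent.Lib.MP7d449a.AM
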