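import Pool.Agent.Lib.MP_7d449a_al.AM.Bdy

/-!
# MP_7d449a_al, relatively amenable subgroups with cocompact normaliser

Let `G = C P` with a compact set `C` and a subgroup `P`, which normalises a relatively amenable
subgroup `A`, and let `G` act on a compact space such that every element of `G` normalises a compact
open subgroup or its contraction groups act trivially. Then the closed normal subgroup generated by
`A` leaves a probability measure invariant.
-/

set_option autoImplicit false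

open Filter Topology MeasureTheory MeasureTheory.Measure
open scoped Pointwise ENNReal NNReal CompactlySupported

namespace Pool.Agent.Lib.MP7d449a.AM

open Pool.Agent.Lib.MP7d449a.GP

universe u v

/-- A minimal invariant sublinear functional. -/
theorem exists_min {G : Type u} [Group G] [TopologicalSpace G] {X : Type v} [TopologicalSpace X]
    [CompactSpace X] [Nonempty X] [MulAction G X] [ContinuousSMul G X] :
    ∃ p : C(X, ℝ) → ℝ, SL p ∧ (∀ (g : G) (f : C(X, ℝ)), p (tr g f) = p f) ∧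
      ∀ q : C(X, ℝ) → ℝ, SL q → (∀ (g : G) (f : C(X, ℝ)), q (tr g f) = q f) →
        (∀ f, q f ≤ p f) → ∀ f, q f = p f := by
  let S : Set (C(X, ℝ) → ℝ)ᵒᵈ := {p | SL (OrderDual.ofDual p) ∧
    ∀ (g : G) (f : C(X, ℝ)), OrderDual.ofDual p (tr g f) = OrderDual.ofDual p f}
  have ih : ∀ c ⊆ S, IsChain (· ≤ ·) c → ∀ y ∈ c, ∃ ub ∈ S, ∀ z ∈ c, z ≤ ub := by
    intro c hc hch y hy
    have : Nonempty c := ⟨⟨y, hy⟩⟩
    let q : C(X, ℝ) → ℝ := fun f => ⨅ p : c, OrderDual.ofDual p.1 f
    have hbdd : ∀ f, BddBelow (Set.range fun p : c => OrderDual.ofDual p.1 f) := fun f =>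
      ⟨-‖f‖, by rintro _ ⟨p, rfl⟩; exact (hc p.2).1.neg_norm_le f⟩
    refine ⟨OrderDual.toDual q, ⟨⟨?_, ?_, ?_⟩, ?_⟩, ?_⟩
    · intro r hr f
      show ⨅ p : c, OrderDual.ofDual p.1 (r • f) = r * ⨅ p : c, OrderDual.ofDual p.1 f
      rw [Real.mul_iInf_of_nonneg hr.le]
      congr 1
      funext p
      exact (hc p.2).1.hom r hr f
    · intro f g
      refine le_ciInf_add_ciInf fun p p' => ?_
      show q (f + g) ≤ OrderDual.ofDual p.1 f + OrderDual.ofDual p'.1 g
      rcases hch.total p.2 p'.2 with h | h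
      · have h1 : q (f + g) ≤ OrderDual.ofDual p'.1 (f + g) := ciInf_le (hbdd _) p'
        have h2 := (hc p'.2).1.add f g
        have h3 : OrderDual.ofDual p'.1 f ≤ OrderDual.ofDual p.1 f := h f
        linarith
      · have h1 : q (f + g) ≤ OrderDual.ofDual p.1 (f + g) := ciInf_le (hbdd _) p
        have h2 := (hc p.2).1.add f g
        have h3 : OrderDual.ofDual p.1 g ≤ OrderDual.ofDual p'.1 g := h g
        linarith
    · intro f M hM
      exact (ciInf_le (hbdd f) ⟨y, hy⟩).trans ((hc hy).1.le f M hM)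
    · intro g f
      show ⨅ p : c, OrderDual.ofDual p.1 (tr g f) = ⨅ p : c, OrderDual.ofDual p.1 f
      congr 1
      funext p
      exact (hc p.2).2 g f
    · intro z hz f
      exact ciInf_le (hbdd f) ⟨z, hz⟩
  obtain ⟨m, -, hm⟩ := zorn_le_nonempty₀ S ih (OrderDual.toDual fun f : C(X, ℝ) => ⨆ x, f x)
    ⟨sl_max, fun g f => max_tr g f⟩
  refine ⟨OrderDual.ofDual m, hm.prop.1, hm.prop.2, fun q hq hqg hle f => le_antisymm (hle f) ?_⟩
  have h1 : (OrderDual.toDual q) ≤ m := hm.le_of_ge (y := OrderDual.toDual q) ⟨hq, hqg⟩ hle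
  exact h1 f

section Fn

variable {X : Type v} [TopologicalSpace X] [CompactSpace X]

/-- The linear functionals below `p`. -/
def Fs (p : C(X, ℝ) → ℝ) : Set (C(X, ℝ) → ℝ) :=
  {l | (∀ f g, l (f + g) = l f + l g) ∧ (∀ (c : ℝ) (f), l (c • f) = c * l f) ∧ ∀ f, l f ≤ p f}

/-- The space of the linear functionals below `p`. -/
def Fn (p : C(X, ℝ) → ℝ) : Type v := Fs p

variable (p : C(X, ℝ) → ℝ)

instance : TopologicalSpace (Fn p) := inferInstanceAs (TopologicalSpace (Fs p))

instance : T2Space (Fn p) := inferInstanceAs (T2Space (Fs p))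

omit [CompactSpace X] in
theorem fs_neg {p : C(X, ℝ) → ℝ} {l : C(X, ℝ) → ℝ} (hl : l ∈ Fs p) (f : C(X, ℝ)) :
    l (-f) = -l f := by
  have := hl.2.1 (-1) f
  rwa [neg_one_smul, neg_one_mul] at this

instance : CompactSpace (Fn p) := by
  refine isCompact_iff_compactSpace.1 (?_ : IsCompact (Fs p))
  refine IsCompact.of_isClosed_subset
    (isCompact_univ_pi fun f => isCompact_Icc (a := -p (-f)) (b := p f)) ?_ ?_
  · have h1 : Fs p = (⋂ f : C(X, ℝ), ⋂ g : C(X, ℝ), {l | l (f + g) = l f + l g}) ∩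
        ((⋂ c : ℝ, ⋂ f : C(X, ℝ), {l | l (c • f) = c * l f}) ∩
          ⋂ f : C(X, ℝ), {l | l f ≤ p f}) := by
      ext l
      simp [Fs]
    rw [h1]
    refine IsClosed.inter ?_ (IsClosed.inter ?_ ?_)
    · exact isClosed_iInter fun f => isClosed_iInter fun g =>
        isClosed_eq (continuous_apply _) ((continuous_apply f).add (continuous_apply g))
    · exact isClosed_iInter fun f => isClosed_iInter fun g =>
        isClosed_eq (continuous_apply _) (continuous_const.mul (continuous_apply g))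
    · exact isClosed_iInter fun f => isClosed_le (continuous_apply _) continuous_const
  · intro l hl f _
    refine ⟨?_, hl.2.2 f⟩
    have h1 := hl.2.2 (-f)
    rw [fs_neg hl] at h1
    linarith

omit [CompactSpace X] in
theorem fs_sl {p : C(X, ℝ) → ℝ} (hp : SL p) {l : C(X, ℝ) → ℝ} (hl : l ∈ Fs p) : SL l :=
  ⟨fun c _ f => hl.2.1 c f, fun f g => (hl.1 f g).le, fun f M hM =>
    (hl.2.2 f).trans (hp.le f M hM)⟩

omit [CompactSpace X] in
theorem fn_cont (f : C(X, ℝ)) : Continuous fun l : Fn p => l.1 f :=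
  (continuous_apply f).comp continuous_subtype_val

end Fn

/-- Relatively amenable subgroups have invariant linear functionals. -/
theorem exists_inv {G : Type u} [Group G] [TopologicalSpace G] (A : Subgroup G)
    (hA : ∀ (Y : Type u) [TopologicalSpace Y] [CompactSpace Y] [T2Space Y] [Nonempty Y]
      [MeasurableSpace Y] [BorelSpace Y] [MulAction G Y] [ContinuousSMul G Y],
      ∃ μ : Measure Y, IsProbabilityMeasure μ ∧ μ.Regular ∧ ∀ g ∈ A, μ.map (fun x => g • x) = μ)
    {X : Type u} [TopologicalSpace X] [CompactSpace X] [MulAction G X] [ContinuousSMul G X]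
    {p : C(X, ℝ) → ℝ} (hp : SL p) (hpg : ∀ (g : G) (f : C(X, ℝ)), p (tr g f) = p f) :
    ∃ l ∈ Fs p, ∀ a ∈ A, ∀ f, l (tr a f) = l f := by
  obtain ⟨l₁, hl₁⟩ := hp.exists_linear
  have : Nonempty (Fn p) := ⟨⟨l₁, map_add l₁, fun c f => by simp, hl₁⟩⟩
  letI i1 : MulAction G (Fn p) :=
    { smul := fun a l => ⟨fun f => l.1 (tr a f),
        fun f g => l.2.1 (tr a f) (tr a g),
        fun c f => l.2.2.1 c (tr a f), fun f => (l.2.2.2 _).trans (hpg a f).le⟩
      one_smul := fun l => Subtype.ext (by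
        funext f
        show l.1 (tr (1 : G) f) = l.1 f
        rw [tr_one])
      mul_smul := fun a b l => Subtype.ext (by
        funext f
        show l.1 (tr (a * b) f) = l.1 (tr b (tr a f))
        rw [tr_mul]) }
  have i2 : ContinuousSMul G (Fn p) := by
    constructor
    refine continuous_induced_rng.2 (continuous_pi fun f => ?_)
    show Continuous fun y : G × Fn p => y.2.1 (tr y.1 f)
    refine continuous_iff_continuousAt.2 fun y₀ => ?_
    have h1 : Tendsto (fun y : G × Fn p => y.2.1 (tr y₀.1 f)) (𝓝 y₀)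
        (𝓝 (y₀.2.1 (tr y₀.1 f))) :=
      ((fn_cont p _).comp continuous_snd).tendsto y₀
    have h2 : Tendsto (fun y : G × Fn p => y.2.1 (tr y.1 f - tr y₀.1 f)) (𝓝 y₀)
        (𝓝 0) := by
      have h3 : Tendsto (fun y : G × Fn p => ‖tr y.1 f - tr y₀.1 f‖) (𝓝 y₀)
          (𝓝 0) := by
        have h4 : Continuous fun y : G × Fn p => ‖tr y.1 f - tr y₀.1 f‖ :=
          (((tr_cont f).comp continuous_fst).sub continuous_const).norm
        have h5 := h4.tendsto y₀
        simpa using h5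
      refine squeeze_zero_norm (fun y => ?_) h3
      rw [Real.norm_eq_abs, abs_le]
      have h6 := fs_sl hp y.2.2
      exact ⟨h6.neg_norm_le _, h6.le_norm _⟩
    have h7 := h1.add h2
    rw [add_zero] at h7
    refine h7.congr fun y => ?_
    rw [← y.2.2.1, add_sub_cancel]
  letI i3 : MeasurableSpace (Fn p) := borel (Fn p)
  have i4 : BorelSpace (Fn p) := ⟨rfl⟩
  obtain ⟨m, hm1, -, hm⟩ := hA (Fn p)
  have hi : ∀ f : C(X, ℝ), Integrable (fun l : Fn p => l.1 f) m := fun f =>
    (fn_cont p f).integrable_of_hasCompactSupport (HasCompactSupport.of_compactSpace _)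
  refine ⟨fun f => ∫ l : Fn p, l.1 f ∂m, ⟨fun f g => ?_, fun c f => ?_, fun f => ?_⟩, ?_⟩
  · show ∫ l : Fn p, l.1 (f + g) ∂m = ∫ l : Fn p, l.1 f ∂m + ∫ l : Fn p, l.1 g ∂m
    rw [← integral_add (hi f) (hi g)]
    congr 1
    funext l
    exact l.2.1 f g
  · show ∫ l : Fn p, l.1 (c • f) ∂m = c * ∫ l : Fn p, l.1 f ∂m
    rw [← integral_const_mul]
    congr 1
    funext l
    exact l.2.2.1 c f
  · have h1 : ∫ l : Fn p, l.1 f ∂m ≤ ∫ l : Fn p, p f ∂m :=
      integral_mono (hi f) (integrable_const _) fun l => l.2.2.2 f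
    simpa using h1
  · intro a ha f
    show ∫ l : Fn p, l.1 (tr a f) ∂m = ∫ l : Fn p, l.1 f ∂m
    conv_rhs => rw [← hm a ha]
    rw [integral_map (by fun_prop) ((fn_cont p f).aestronglyMeasurable)]
    rfl

/-- The theorem on relatively amenable subgroups. -/
theorem rad {G : Type u} [Group G] [TopologicalSpace G] [IsTopologicalGroup G]
    [LocallyCompactSpace G] [TotallyDisconnectedSpace G] [T2Space G] (P : Subgroup G) {C : Set G}
    (hC : IsCompact C) (hCP : ∀ g : G, ∃ c ∈ C, ∃ p ∈ P, g = c * p) (A : Subgroup G)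
    (hA : ∀ (Y : Type u) [TopologicalSpace Y] [CompactSpace Y] [T2Space Y] [Nonempty Y]
      [MeasurableSpace Y] [BorelSpace Y] [MulAction G Y] [ContinuousSMul G Y],
      ∃ μ : Measure Y, IsProbabilityMeasure μ ∧ μ.Regular ∧ ∀ g ∈ A, μ.map (fun x => g • x) = μ)
    (hAP : ∀ b ∈ P, ∀ a ∈ A, b * a * b⁻¹ ∈ A) {X : Type u}
    [TopologicalSpace X] [CompactSpace X] [T2Space X] [Nonempty X] [MeasurableSpace X]
    [BorelSpace X] [MulAction G X] [ContinuousSMul G X]
    (hX : Tame G X) :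
    ∃ ν : Measure X, IsProbabilityMeasure ν ∧ ν.Regular ∧
      ∀ g ∈ (Subgroup.normalClosure (A : Set G)).topologicalClosure,
        ν.map (fun x => g • x) = ν := by
  obtain ⟨p, hp, hpg, hmin⟩ := exists_min (G := G) (X := X)
  let F : Set (C(X, ℝ) → ℝ) := {l | l ∈ Fs p ∧ ∀ a ∈ A, ∀ f, l (tr a f) = l f}
  obtain ⟨l₀, hl₀, hl₀A⟩ := exists_inv A hA hp hpg
  have : Nonempty F := ⟨⟨l₀, hl₀, hl₀A⟩⟩
  have hb : ∀ f : C(X, ℝ), BddAbove (Set.range fun l : F => l.1 f) := by
    intro f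
    refine ⟨p f, ?_⟩
    rintro _ ⟨l, rfl⟩
    exact l.2.1.2.2 f
  let σ : C(X, ℝ) → ℝ := fun f => ⨆ l : F, l.1 f
  have hσ : SL σ := by
    refine ⟨fun c hc f => ?_, fun f g => ?_, fun f M hM => ?_⟩
    · show ⨆ l : F, l.1 (c • f) = c * ⨆ l : F, l.1 f
      rw [Real.mul_iSup_of_nonneg hc.le]
      congr 1
      funext l
      exact l.2.1.2.1 c f
    · refine ciSup_le fun l => ?_
      rw [l.2.1.1]
      exact add_le_add (le_ciSup (hb f) l) (le_ciSup (hb g) l)
    · exact ciSup_le fun l => (l.2.1.2.2 f).trans (hp.le f M hM)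
  have hmove : ∀ (g : G) (l : C(X, ℝ) → ℝ), l ∈ Fs p → (fun f => l (tr g f)) ∈ Fs p :=
    fun g l hl => ⟨fun f h => hl.1 (tr g f) (tr g h), fun c f => hl.2.1 c (tr g f), fun f =>
      (hl.2.2 _).trans (hpg g f).le⟩
  have hσle : ∀ b ∈ P, ∀ f, σ (tr b f) ≤ σ f := by
    intro b hb' f
    refine ciSup_le fun l => ?_
    have h1 : (fun f => l.1 (tr b f)) ∈ F := by
      refine ⟨hmove b l.1 l.2.1, fun a ha f => ?_⟩
      show l.1 (tr b (tr a f)) = l.1 (tr b f)
      have h2 : b⁻¹ * a * b ∈ A := by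
        have := hAP b⁻¹ (P.inv_mem hb') a ha
        rwa [inv_inv] at this
      have h3 : tr b (tr a f) = tr (b⁻¹ * a * b) (tr b f) := by
        rw [← tr_mul, ← tr_mul]
        congr 1
        group
      rw [h3, l.2.2 _ h2]
    exact le_ciSup (hb f) (⟨_, h1⟩ : F)
  have hσP : ∀ b ∈ P, ∀ f, σ (tr b f) = σ f := by
    intro b hb' f
    refine le_antisymm (hσle b hb' f) ?_
    have h1 := hσle b⁻¹ (P.inv_mem hb') (tr b f)
    rwa [← tr_mul, mul_inv_cancel, tr_one] at h1
  obtain ⟨p', hp', hinv, hmain, -, -⟩ := average P hC hCP hX hσ hσP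
  obtain ⟨hle, heq⟩ := hmain p hpg (fun f => ciSup_le fun l => l.2.1.2.2 f)
  have hσp : ∀ f, σ f = p f := fun f => heq f (hmin p' hp' hinv hle f)
  -- all functionals are invariant
  have hall : ∀ l ∈ Fs p, ∀ a ∈ A, ∀ f, l (tr a f) = l f := by
    intro l hl a ha f
    have h1 : p (tr a f - f) ≤ 0 := by
      rw [← hσp]
      refine ciSup_le fun l' => ?_
      rw [sub_eq_add_neg, l'.2.1.1, fs_neg l'.2.1, l'.2.2 a ha]
      linarith
    have h2 : p (-(tr a f - f)) ≤ 0 := by
      rw [← hσp]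
      refine ciSup_le fun l' => ?_
      rw [fs_neg l'.2.1, sub_eq_add_neg, l'.2.1.1, fs_neg l'.2.1, l'.2.2 a ha]
      linarith
    have h3 := hl.2.2 (tr a f - f)
    have h4 := hl.2.2 (-(tr a f - f))
    have h5 : l (tr a f - f) = l (tr a f) - l f := by
      rw [sub_eq_add_neg, hl.1, fs_neg hl, sub_eq_add_neg]
    rw [fs_neg hl] at h4
    rw [h5] at h3 h4
    linarith
  obtain ⟨ν, hν1, hν2, hν⟩ := hp.exists_measure hl₀.1 hl₀.2.1 hl₀.2.2
  let T : Subgroup G :=
    { carrier := {g | ∀ f, l₀ (tr g f) = l₀ f}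
      mul_mem' := by
        intro g h hg hh f
        show l₀ (tr (g * h) f) = l₀ f
        rw [tr_mul, hh, hg]
      one_mem' := by
        intro f
        show l₀ (tr (1 : G) f) = l₀ f
        rw [tr_one]
      inv_mem' := by
        intro g hg f
        show l₀ (tr g⁻¹ f) = l₀ f
        rw [← hg (tr g⁻¹ f), ← tr_mul, inv_mul_cancel, tr_one] }
  have hTc : IsClosed (T : Set G) := by
    have h1 : (T : Set G) = ⋂ f : C(X, ℝ), {g : G | l₀ (tr g f) = l₀ f} := by
      ext g
      simp only [Set.mem_iInter]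
      rfl
    rw [h1]
    exact isClosed_iInter fun f =>
      isClosed_eq ((fs_sl hp hl₀).cont.comp (tr_cont f)) continuous_const
  have hTn : Subgroup.normalClosure (A : Set G) ≤ T := by
    refine (Subgroup.closure_le T).2 ?_
    intro x hx
    obtain ⟨a, ha, hax⟩ := Group.mem_conjugatesOfSet_iff.1 hx
    obtain ⟨c, rfl⟩ := isConj_iff.1 hax
    show ∀ f, l₀ (tr (c * a * c⁻¹) f) = l₀ f
    intro f
    have h1 := hall _ (hmove c⁻¹ l₀ hl₀) a ha (tr c f)
    have h2 : l₀ (tr c⁻¹ (tr a (tr c f))) = l₀ (tr c⁻¹ (tr c f)) := h1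
    rwa [← tr_mul, ← tr_mul, ← tr_mul, mul_inv_cancel, tr_one, ← mul_assoc] at h2
  refine ⟨ν, hν1, hν2, fun g hg => ?_⟩
  have hgT : g ∈ T := (Subgroup.topologicalClosure_minimal _ hTn hTc) hg
  exact map_eq ν g fun f => by rw [hν, hν, hgT f]

end Pool.Agent.Lib.MP7d449a.AM
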