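import Pool.Agent.Lib.MP_7d449a_al.AM.Coc

/-!
# MP_7d449a_al, cocompact subgroups: the invariant mean

Let `Q = C P` with a compact set `C` and a closed subgroup `P`, such that every element of `Q`
normalises a compact open subgroup. There is an invariant mean on the continuous functions on `Q`
which are right invariant under `P`, and it is strictly positive.
-/

set_option autoImplicit false

open Filter Topology MeasureTheory MeasureTheory.Measure
open scoped Pointwise ENNReal NNReal CompactlySupported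

namespace Pool.Agent.Lib.MP7d449a.AM

open Pool.Agent.Lib.MP7d449a.GP

universe u v

/-- Continuous and right invariant. -/
def RI {Q : Type u} [Group Q] [TopologicalSpace Q] (R : Subgroup Q) (φ : Q → ℝ) : Prop :=
  Continuous φ ∧ ∀ g : Q, ∀ p ∈ R, φ (g * p) = φ g

/-- The invariant mean on the continuous right invariant functions. -/
theorem avg {Q : Type u} [Group Q] [TopologicalSpace Q] [IsTopologicalGroup Q]
    [LocallyCompactSpace Q] [T2Space Q] (hT : US Q) (P : Subgroup Q) (hP : IsClosed (P : Set Q))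
    {C : Set Q} (hC : IsCompact C) (hCP : ∀ g : Q, ∃ c ∈ C, ∃ p ∈ P, g = c * p) :
    ∃ A : (Q → ℝ) → ℝ, (∀ φ ψ : Q → ℝ, RI P φ → RI P ψ → A (φ + ψ) = A φ + A ψ) ∧
      (∀ (r : ℝ) (φ : Q → ℝ), RI P φ → A (r • φ) = r * A φ) ∧
      (∀ φ : Q → ℝ, RI P φ → (∀ g, 0 ≤ φ g) → 0 ≤ A φ) ∧ A 1 = 1 ∧
      (∀ (h : Q) (φ : Q → ℝ), RI P φ → A (fun g => φ (h * g)) = A φ) ∧
      ∀ φ : Q → ℝ, RI P φ → (∀ g, 0 ≤ φ g) → A φ = 0 → ∀ g, φ g = 0 := by
  borelize Q
  have hlc : LocallyCompactSpace P := hP.isClosedEmbedding_subtypeVal.locallyCompactSpace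
  have hr : (haar : Measure Q).IsMulRightInvariant := right_inv hT
  have hTP : US P := hT.sub P hP
  have hi : (haar : Measure P).IsInvInvariant := inv_inv' hTP
  obtain ⟨U, ⟨hUo, hUc⟩, -⟩ := hT 1
  -- the weight
  let W : Set Q := (U : Set Q) * C
  have hWc : IsCompact W := hUc.mul hC
  have hWU : ∀ u ∈ U, ∀ x, u * x ∈ W ↔ x ∈ W := by
    have key : ∀ u ∈ U, ∀ x, x ∈ W → u * x ∈ W := by
      rintro u hu x hx
      obtain ⟨w, hw, c, hc, rfl⟩ := Set.mem_mul.1 hx
      exact Set.mem_mul.2 ⟨u * w, U.mul_mem hu hw, c, hc, by group⟩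
    intro u hu x
    refine ⟨fun h => ?_, key u hu x⟩
    have := key u⁻¹ (U.inv_mem hu) _ h
    rwa [inv_mul_cancel_left] at this
  have hCW : ∀ c ∈ C, c ∈ W := fun c hc => Set.mem_mul.2 ⟨1, U.one_mem, c, hc, one_mul c⟩
  let b₀ : Q → ℝ := W.indicator 1
  have hb₀z : ∀ x, x ∉ W → b₀ x = 0 := fun x hx => Set.indicator_of_notMem hx _
  have hb₀1 : ∀ x, x ∈ W → b₀ x = 1 := fun x hx => Set.indicator_of_mem hx _
  have hb₀U : ∀ u ∈ U, ∀ x, b₀ (u * x) = b₀ x := by
    intro u hu x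
    by_cases hx : x ∈ W
    · rw [hb₀1 x hx, hb₀1 _ ((hWU u hu x).2 hx)]
    · rw [hb₀z x hx, hb₀z _ (fun h => hx ((hWU u hu x).1 h))]
  have hb₀c : Continuous b₀ := cont_left hUo hb₀U
  have hb₀n : ∀ x, 0 ≤ b₀ x := fun x => Set.indicator_nonneg (fun _ _ => zero_le_one) x
  let c : Q → ℝ := fun g => ∫ p : P, b₀ (g * p) ∂haar
  have hcs : ∀ g : Q, HasCompactSupport fun p : P => b₀ (g * p) := by
    intro g
    refine HasCompactSupport.intro (K := (Subtype.val : P → Q) ⁻¹' ({g⁻¹} * W)) ?_ ?_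
    · exact hP.isClosedEmbedding_subtypeVal.isCompact_preimage (isCompact_singleton.mul hWc)
    · intro p hp
      apply hb₀z
      intro h
      apply hp
      exact Set.mem_mul.2 ⟨g⁻¹, rfl, g * p, h, by group⟩
  have hcP : ∀ g : Q, ∀ p' : P, c (g * p') = c g := by
    intro g p'
    show ∫ p : P, b₀ (g * p' * p) ∂haar = ∫ p : P, b₀ (g * p) ∂haar
    rw [← integral_mul_left_eq_self (μ := (haar : Measure P)) (fun p : P => b₀ (g * p)) p']
    refine integral_congr_ae (Eventually.of_forall fun p => ?_)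
    show b₀ (g * p' * p) = b₀ (g * ((p' * p : P) : Q))
    rw [Subgroup.coe_mul, mul_assoc]
  have hcU : ∀ u ∈ U, ∀ x, c (u * x) = c x := by
    intro u hu x
    refine integral_congr_ae (Eventually.of_forall fun p => ?_)
    show b₀ (u * x * p) = b₀ (x * p)
    rw [mul_assoc, hb₀U u hu]
  have hcpos : ∀ g : Q, 0 < c g := by
    intro g
    obtain ⟨c₁, hc₁, p₁, hp₁, rfl⟩ := hCP g
    have h1 : Continuous fun p : P => b₀ (c₁ * p₁ * p) := by fun_prop
    refine h1.integral_pos_of_hasCompactSupport_nonneg_nonzero (x := (⟨p₁, hp₁⟩ : P)⁻¹)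
      (hcs _) (fun p => hb₀n _) ?_
    show b₀ (c₁ * p₁ * p₁⁻¹) ≠ 0
    rw [mul_inv_cancel_right, hb₀1 _ (hCW _ hc₁)]
    exact one_ne_zero
  let b : Q → ℝ := fun g => b₀ g / c g
  have hbU : ∀ u ∈ U, ∀ x, b (u * x) = b x := by
    intro u hu x
    show b₀ (u * x) / c (u * x) = b₀ x / c x
    rw [hb₀U u hu, hcU u hu]
  have hbc : Continuous b := cont_left hUo hbU
  have hbs : HasCompactSupport b := by
    refine HasCompactSupport.intro hWc fun x hx => ?_
    show b₀ x / c x = 0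
    rw [hb₀z x hx, zero_div]
  have hbn : ∀ x, 0 ≤ b x := fun x => div_nonneg (hb₀n x) (hcpos x).le
  have hb1 : ∀ g : Q, ∫ p : P, b (g * p) ∂haar = 1 := by
    intro g
    have h1 : (fun p : P => b (g * p)) = fun p : P => (c g)⁻¹ * b₀ (g * p) := by
      funext p
      show b₀ (g * p) / c (g * p) = (c g)⁻¹ * b₀ (g * p)
      rw [hcP]
      ring
    rw [h1, integral_const_mul]
    exact inv_mul_cancel₀ (hcpos g).ne'
  have hI : 0 < ∫ g, b g ∂(haar : Measure Q) := by
    obtain ⟨c₁, hc₁, -⟩ := hCP 1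
    refine hbc.integral_pos_of_hasCompactSupport_nonneg_nonzero (x := c₁) hbs hbn ?_
    show b₀ c₁ / c c₁ ≠ 0
    rw [hb₀1 _ (hCW _ hc₁)]
    exact div_ne_zero one_ne_zero (hcpos _).ne'
  have hint : ∀ φ : Q → ℝ, RI P φ → Integrable (fun g => b g * φ g) (haar : Measure Q) := by
    intro φ hφ
    have h1 : Continuous fun g => b g * φ g := hbc.mul hφ.1
    exact h1.integrable_of_hasCompactSupport hbs.mul_right
  refine ⟨fun φ => (∫ g, b g * φ g ∂haar) / ∫ g, b g ∂haar, ?_, ?_, ?_, ?_, ?_, ?_⟩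
  · intro φ ψ hφ hψ
    have h1 : (fun g => b g * (φ + ψ) g) = fun g => b g * φ g + b g * ψ g := by
      funext g
      exact mul_add _ _ _
    show (∫ g, b g * (φ + ψ) g ∂haar) / _ = _ / _ + _ / _
    rw [h1, integral_add (hint φ hφ) (hint ψ hψ), add_div]
  · intro r φ hφ
    have h1 : (fun g => b g * (r • φ) g) = fun g => r * (b g * φ g) := by
      funext g
      show b g * (r * φ g) = r * (b g * φ g)
      ring
    show (∫ g, b g * (r • φ) g ∂haar) / _ = r * (_ / _)
    rw [h1, integral_const_mul, mul_div_assoc]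
  · intro φ hφ hn
    exact div_nonneg (integral_nonneg fun g => mul_nonneg (hbn g) (hn g)) hI.le
  · have h1 : (fun g => b g * (1 : Q → ℝ) g) = b := by
      funext g
      exact mul_one _
    show (∫ g, b g * (1 : Q → ℝ) g ∂haar) / _ = 1
    rw [h1]
    exact div_self hI.ne'
  · intro h φ hφ
    show (∫ g, b g * φ (h * g) ∂haar) / _ = (∫ g, b g * φ g ∂haar) / _
    congr 1
    rw [← integral_mul_left_eq_self (μ := (haar : Measure Q))
      (fun g => b g * φ (h * g)) h⁻¹]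
    have h2 : (fun g => b (h⁻¹ * g) * φ (h * (h⁻¹ * g))) = fun g => b (h⁻¹ * g) * φ g := by
      funext g
      rw [mul_inv_cancel_left]
    show ∫ g, b (h⁻¹ * g) * φ (h * (h⁻¹ * g)) ∂haar = _
    rw [h2]
    refine weight hP hr hi (b₁ := fun g => b (h⁻¹ * g)) (b₂ := b) ?_ ?_ hbc hbs hφ.1
      (fun g p => hφ.2 g p p.2) ?_ hb1
    · exact hbc.comp (continuous_const_mul h⁻¹)
    · exact hbs.comp_homeomorph (Homeomorph.mulLeft h⁻¹)
    · intro g
      have h3 := hb1 (h⁻¹ * g)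
      rw [← h3]
      refine integral_congr_ae (Eventually.of_forall fun p => ?_)
      show b (h⁻¹ * (g * p)) = b (h⁻¹ * g * p)
      rw [mul_assoc]
  · intro φ hφ hn h0 g
    have h0 : (∫ g, b g * φ g ∂haar) / ∫ g, b g ∂(haar : Measure Q) = 0 := h0
    by_contra hg
    obtain ⟨c₁, hc₁, p₁, hp₁, rfl⟩ := hCP g
    rw [hφ.2 c₁ p₁ hp₁] at hg
    have h1 : Continuous fun g => b g * φ g := hbc.mul hφ.1
    have h2 : 0 < ∫ g, b g * φ g ∂(haar : Measure Q) := by
      refine h1.integral_pos_of_hasCompactSupport_nonneg_nonzero (x := c₁) hbs.mul_right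
        (fun g => mul_nonneg (hbn g) (hn g)) ?_
      refine mul_ne_zero ?_ hg
      show b₀ c₁ / c c₁ ≠ 0
      rw [hb₀1 _ (hCW _ hc₁)]
      exact div_ne_zero one_ne_zero (hcpos _).ne'
    exact (div_pos h2 hI).ne' h0

end Pool.Agent.Lib.MP7d449a.AM
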