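import Pool.Agent.Lib.MP_7d449a_al.AM.Space

/-!
# MP_7d449a_al, cocompact subgroups: sublinear functionals

Sublinear functionals on the continuous functions on a compact `G`-space, which are invariant under a
cocompact subgroup `P`, and their averages over `G / P`, if every element of `G` normalises a compact
open subgroup or its contraction groups act trivially.
-/

set_option autoImplicit false

open Filter Topology MeasureTheory MeasureTheory.Measure
open scoped Pointwise ENNReal NNReal CompactlySupported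

namespace Pool.Agent.Lib.MP7d449a.AM

open Pool.Agent.Lib.MP7d449a.GP

universe u v

section tr

variable {G : Type u} [Group G] [TopologicalSpace G] {X : Type v}
  [TopologicalSpace X] [MulAction G X] [ContinuousSMul G X]

/-- Translation of a continuous function. -/
def tr (g : G) (f : C(X, ℝ)) : C(X, ℝ) := ⟨fun x => f (g • x), by fun_prop⟩

theorem tr_apply (g : G) (f : C(X, ℝ)) (x : X) : tr g f x = f (g • x) := rfl

theorem tr_mul (g h : G) (f : C(X, ℝ)) : tr (g * h) f = tr h (tr g f) := by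
  ext x
  show f ((g * h) • x) = f (g • h • x)
  rw [mul_smul]

theorem tr_one (f : C(X, ℝ)) : tr (1 : G) f = f := by
  ext x
  show f ((1 : G) • x) = f x
  rw [one_smul]

theorem tr_add (g : G) (f h : C(X, ℝ)) : tr g (f + h) = tr g f + tr g h := rfl

theorem tr_sub (g : G) (f h : C(X, ℝ)) : tr g (f - h) = tr g f - tr g h := rfl

theorem tr_smul (g : G) (c : ℝ) (f : C(X, ℝ)) : tr g (c • f) = c • tr g f := rfl

theorem tr_cont [CompactSpace X] (f : C(X, ℝ)) : Continuous fun g : G => tr g f := by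
  let F : C(G × X, ℝ) := ⟨fun y => f (y.1 • y.2), f.continuous.comp continuous_smul⟩
  have h : (fun g : G => tr g f) = fun g => F.curry g := by
    funext g
    ext x
    rfl
  rw [h]
  exact F.curry.continuous

end tr

/-- Sublinear functionals below the maximum. -/
structure SL {X : Type v} [TopologicalSpace X] (p : C(X, ℝ) → ℝ) : Prop where
  hom : ∀ c : ℝ, 0 < c → ∀ f, p (c • f) = c * p f
  add : ∀ f g, p (f + g) ≤ p f + p g
  le : ∀ (f : C(X, ℝ)) (M : ℝ), (∀ x, f x ≤ M) → p f ≤ M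

section SL

variable {X : Type v} [TopologicalSpace X] [CompactSpace X] {p : C(X, ℝ) → ℝ}

omit [CompactSpace X] in
theorem SL.zero (hp : SL p) : p 0 = 0 := by
  have h := hp.hom 2 two_pos 0
  rw [smul_zero] at h
  linarith

omit [CompactSpace X] in
theorem SL.neg_le (hp : SL p) (f : C(X, ℝ)) : -p (-f) ≤ p f := by
  have h := hp.add f (-f)
  rw [add_neg_cancel, hp.zero] at h
  linarith

theorem SL.le_norm (hp : SL p) (f : C(X, ℝ)) : p f ≤ ‖f‖ := hp.le f _ fun x => f.apply_le_norm x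

theorem SL.neg_norm_le (hp : SL p) (f : C(X, ℝ)) : -‖f‖ ≤ p f := by
  have h := hp.neg_le f
  have h2 := hp.le_norm (-f)
  rw [norm_neg] at h2
  linarith

theorem SL.sub_le (hp : SL p) (f g : C(X, ℝ)) : p f ≤ p g + ‖f - g‖ := by
  have h := hp.add g (f - g)
  rw [add_sub_cancel] at h
  linarith [hp.le_norm (f - g)]

theorem SL.cont (hp : SL p) : Continuous p := by
  refine (LipschitzWith.of_dist_le_mul (K := 1) fun f g => ?_).continuous
  rw [NNReal.coe_one, one_mul, Real.dist_eq, dist_eq_norm, abs_le]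
  have h1 := hp.sub_le f g
  have h2 := hp.sub_le g f
  rw [norm_sub_rev] at h2
  constructor <;> linarith

omit [CompactSpace X] in
/-- Hahn-Banach. -/
theorem SL.exists_linear (hp : SL p) : ∃ l : C(X, ℝ) →ₗ[ℝ] ℝ, ∀ f, l f ≤ p f := by
  obtain ⟨l, -, hl⟩ := exists_extension_of_le_sublinear (⊥ : C(X, ℝ) →ₗ.[ℝ] ℝ) p hp.hom hp.add (by
    intro x
    have h0 : (x : C(X, ℝ)) ∈ (⊥ : Submodule ℝ C(X, ℝ)) := x.2
    have h1 : (x : C(X, ℝ)) = 0 := (Submodule.mem_bot ℝ).1 h0
    have h2 : x = 0 := Subtype.ext h1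
    rw [h2, LinearPMap.map_zero]
    exact hp.zero.ge)
  exact ⟨l, hl⟩

/-- Riesz. -/
theorem SL.exists_measure [T2Space X] [MeasurableSpace X] [BorelSpace X] (hp : SL p)
    {l : C(X, ℝ) → ℝ} (h1 : ∀ f g, l (f + g) = l f + l g) (h2 : ∀ (c : ℝ) (f), l (c • f) = c * l f)
    (h3 : ∀ f, l f ≤ p f) :
    ∃ ν : Measure X, IsProbabilityMeasure ν ∧ ν.Regular ∧ ∀ f : C(X, ℝ), ∫ x, f x ∂ν = l f := by
  have hz : l 0 = 0 := by
    have := h2 0 0
    rwa [zero_smul, zero_mul] at this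
  have hneg : ∀ f, l (-f) = -l f := by
    intro f
    have := h1 f (-f)
    rw [add_neg_cancel, hz] at this
    linarith
  have hpos : ∀ f : C(X, ℝ), (∀ x, 0 ≤ f x) → 0 ≤ l f := by
    intro f hf
    have h4 : l (-f) ≤ 0 := (h3 _).trans (hp.le _ 0 fun x => neg_nonpos.2 (hf x))
    rw [hneg] at h4
    linarith
  have hone : l 1 = 1 := by
    have h4 : l 1 ≤ 1 := (h3 _).trans (hp.le _ 1 fun x => le_rfl)
    have h5 : l (-1) ≤ -1 := (h3 _).trans (hp.le _ (-1) fun x => le_rfl)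
    rw [hneg] at h5
    linarith
  let Λ₀ : C_c(X, ℝ) →ₗ[ℝ] ℝ :=
    { toFun := fun f => l f.toContinuousMap
      map_add' := fun f h => h1 f.toContinuousMap h.toContinuousMap
      map_smul' := fun r f => h2 r f.toContinuousMap }
  let Λ : C_c(X, ℝ) →ₚ[ℝ] ℝ := PositiveLinearMap.mk₀ Λ₀ (fun f hf =>
    hpos f.toContinuousMap fun x => hf x)
  let ν : Measure X := RealRMK.rieszMeasure Λ
  have hν : ∀ f : C_c(X, ℝ), ∫ x, f x ∂ν = l f.toContinuousMap := fun f =>
    RealRMK.integral_rieszMeasure Λ f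
  have hν' : ∀ f : C(X, ℝ), ∫ x, f x ∂ν = l f := fun f =>
    hν ⟨f, HasCompactSupport.of_compactSpace _⟩
  have hfin : IsFiniteMeasure ν := by infer_instance
  have hreg : ν.Regular := by infer_instance
  refine ⟨ν, ⟨?_⟩, hreg, hν'⟩
  have h5 : ∫ x, (1 : C(X, ℝ)) x ∂ν = 1 := by rw [hν', hone]
  have h6 : ∫ x, (1 : C(X, ℝ)) x ∂ν = ν.real Set.univ := by
    show ∫ x : X, (1 : ℝ) ∂ν = _
    simp
  rw [h6] at h5
  have h7 : (ν Set.univ).toReal = 1 := h5
  rw [← ENNReal.ofReal_toReal (measure_ne_top ν Set.univ), h7, ENNReal.ofReal_one]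

end SL

/-- Every element normalises a compact open subgroup, or its contraction groups act trivially. -/
def Tame (G : Type u) [Group G] [TopologicalSpace G] (X : Type v) [MulAction G X] : Prop :=
  ∀ g : G, (∃ V : Subgroup G, IsOpen (V : Set G) ∧ IsCompact (V : Set G) ∧
      ∀ x ∈ V, g * x * g⁻¹ ∈ V ∧ g⁻¹ * x * g ∈ V) ∨
    ∀ y ∈ con g ∪ con g⁻¹, ∀ x : X, y • x = x

/-- The average of an invariant sublinear functional. -/
theorem average {G : Type u} [Group G] [TopologicalSpace G] [IsTopologicalGroup G]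
    [LocallyCompactSpace G] [TotallyDisconnectedSpace G] [T2Space G] (P : Subgroup G) {C : Set G}
    (hC : IsCompact C) (hCP : ∀ g : G, ∃ c ∈ C, ∃ p ∈ P, g = c * p) {X : Type v}
    [TopologicalSpace X] [CompactSpace X] [T2Space X]
    [MulAction G X] [ContinuousSMul G X] (hX : Tame G X)
    {σ : C(X, ℝ) → ℝ} (hσ : SL σ) (hσP : ∀ b ∈ P, ∀ f, σ (tr b f) = σ f) :
    ∃ p' : C(X, ℝ) → ℝ, SL p' ∧ (∀ (g : G) (f : C(X, ℝ)), p' (tr g f) = p' f) ∧
      (∀ p : C(X, ℝ) → ℝ, (∀ (g : G) (f : C(X, ℝ)), p (tr g f) = p f) → (∀ f, σ f ≤ p f) →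
        (∀ f, p' f ≤ p f) ∧ ∀ f, p' f = p f → σ f = p f) ∧
      ((∀ f g, σ (f + g) = σ f + σ g) → ∀ f g, p' (f + g) = p' f + p' g) ∧
      ((∀ (c : ℝ) (f), σ (c • f) = c * σ f) → ∀ (c : ℝ) (f), p' (c • f) = c * p' f) := by
  -- the kernel of the action
  let N : Subgroup G := (MulAction.toPermHom G X).ker
  have hNX : ∀ y ∈ N, ∀ x : X, y • x = x := by
    intro y hy x
    have h1 : MulAction.toPermHom G X y = 1 := hy
    have h2 : MulAction.toPermHom G X y x = x := by rw [h1]; rfl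
    exact h2
  have hNX' : ∀ y : G, (∀ x : X, y • x = x) → y ∈ N := by
    intro y hy
    show MulAction.toPermHom G X y = 1
    ext x
    exact hy x
  have hNc : IsClosed (N : Set G) := by
    have h1 : (N : Set G) = ⋂ x : X, {y : G | y • x = x} := by
      ext y
      rw [Set.mem_iInter]
      exact ⟨fun hy x => hNX y hy x, fun hy => hNX' y hy⟩
    rw [h1]
    exact isClosed_iInter fun x => isClosed_eq (by fun_prop) continuous_const
  have hNt : ∀ y ∈ N, ∀ f : C(X, ℝ), tr y f = f := by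
    intro y hy f
    ext x
    rw [tr_apply, hNX y hy]
  have hT : US (G ⧸ N) := by
    refine US.quo N fun g => ?_
    rcases hX g with ⟨V, hVo, hVc, hV⟩ | h
    · exact Or.inl ⟨V, ⟨hVo, hVc⟩, hV⟩
    · exact Or.inr ⟨fun y hy => hNX' y (h y (Or.inl hy)), fun y hy => hNX' y (h y (Or.inr hy))⟩
  let R : Subgroup (G ⧸ N) := (P.map (QuotientGroup.mk' N)).topologicalClosure
  have hR : IsClosed (R : Set (G ⧸ N)) := Subgroup.isClosed_topologicalClosure _
  have hle : P.map (QuotientGroup.mk' N) ≤ R := Subgroup.le_topologicalClosure _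
  obtain ⟨A, hadd, hsmul, hnn, hone, hinv, hstr⟩ := avg hT R hR
    (hC.image (QuotientGroup.continuous_mk (N := N))) (by
      intro q
      obtain ⟨g, rfl⟩ := QuotientGroup.mk'_surjective N q
      obtain ⟨c, hc, p, hp, rfl⟩ := hCP g
      exact ⟨QuotientGroup.mk' N c, ⟨c, hc, rfl⟩, QuotientGroup.mk' N p, hle ⟨p, hp, rfl⟩,
        map_mul _ _ _⟩)
  -- monotonicity
  have hRIs : ∀ φ ψ : G ⧸ N → ℝ, RI R φ → RI R ψ → RI R (ψ - φ) := by
    intro φ ψ hφ hψ
    refine ⟨hψ.1.sub hφ.1, fun g p hp => ?_⟩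
    show ψ (g * p) - φ (g * p) = ψ g - φ g
    rw [hφ.2 g p hp, hψ.2 g p hp]
  have hRIa : ∀ φ ψ : G ⧸ N → ℝ, RI R φ → RI R ψ → RI R (φ + ψ) := by
    intro φ ψ hφ hψ
    refine ⟨hφ.1.add hψ.1, fun g p hp => ?_⟩
    show φ (g * p) + ψ (g * p) = φ g + ψ g
    rw [hφ.2 g p hp, hψ.2 g p hp]
  have hRI1 : ∀ M : ℝ, RI R (M • (1 : G ⧸ N → ℝ)) := fun M =>
    ⟨continuous_const.const_smul M, fun g p _ => rfl⟩
  have hA1 : ∀ M : ℝ, A (M • (1 : G ⧸ N → ℝ)) = M := by
    intro M
    have h1 : RI R (1 : G ⧸ N → ℝ) := ⟨continuous_const, fun g p _ => rfl⟩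
    rw [hsmul M 1 h1, hone, mul_one]
  have hdiff : ∀ φ ψ : G ⧸ N → ℝ, RI R φ → RI R ψ → A ψ = A φ + A (ψ - φ) := by
    intro φ ψ hφ hψ
    rw [← hadd φ (ψ - φ) hφ (hRIs φ ψ hφ hψ), add_sub_cancel]
  have hmono : ∀ φ ψ : G ⧸ N → ℝ, RI R φ → RI R ψ → (∀ q, φ q ≤ ψ q) → A φ ≤ A ψ := by
    intro φ ψ hφ hψ h
    have h1 := hnn (ψ - φ) (hRIs φ ψ hφ hψ) (fun q => sub_nonneg.2 (h q))
    have h2 := hdiff φ ψ hφ hψ
    linarith
  -- the functions
  let Φ : C(X, ℝ) → G ⧸ N → ℝ := fun f q => σ (tr q.out f)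
  have hΦ : ∀ (f : C(X, ℝ)) (g : G), Φ f (QuotientGroup.mk g) = σ (tr g f) := by
    intro f g
    show σ (tr (QuotientGroup.mk g : G ⧸ N).out f) = _
    obtain ⟨n, hn⟩ := QuotientGroup.mk_out_eq_mul N g
    rw [hn, tr_mul, hNt n n.2]
  have hΦR : ∀ f : C(X, ℝ), RI R (Φ f) := by
    intro f
    have hc : Continuous (Φ f) := by
      have h1 : Continuous (Φ f ∘ (QuotientGroup.mk : G → G ⧸ N)) := by
        have h2 : Φ f ∘ (QuotientGroup.mk : G → G ⧸ N) = fun g => σ (tr g f) := by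
          funext g
          exact hΦ f g
        rw [h2]
        exact hσ.cont.comp (tr_cont f)
      exact QuotientGroup.isOpenQuotientMap_mk.isQuotientMap.continuous_iff.2 h1
    refine ⟨hc, fun q r hr => ?_⟩
    have h1 : IsClosed {r : G ⧸ N | Φ f (q * r) = Φ f q} :=
      isClosed_eq (hc.comp (continuous_const_mul q)) continuous_const
    have h2 : ((P.map (QuotientGroup.mk' N) : Subgroup (G ⧸ N)) : Set (G ⧸ N)) ⊆
        {r : G ⧸ N | Φ f (q * r) = Φ f q} := by
      rintro _ ⟨p, hp, rfl⟩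
      obtain ⟨g, rfl⟩ := QuotientGroup.mk'_surjective N q
      show Φ f (QuotientGroup.mk g * QuotientGroup.mk p) = Φ f (QuotientGroup.mk g)
      rw [← QuotientGroup.mk_mul, hΦ, hΦ, tr_mul, hσP p hp]
    exact closure_minimal h2 h1 hr
  refine ⟨fun f => A (Φ f), ⟨?_, ?_, ?_⟩, ?_, ?_, ?_, ?_⟩
  · intro c hc f
    have h1 : Φ (c • f) = c • Φ f := by
      funext q
      show σ (tr q.out (c • f)) = c * σ (tr q.out f)
      rw [tr_smul, hσ.hom c hc]
    show A (Φ (c • f)) = c * A (Φ f)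
    rw [h1, hsmul c _ (hΦR f)]
  · intro f g
    show A (Φ (f + g)) ≤ A (Φ f) + A (Φ g)
    rw [← hadd _ _ (hΦR f) (hΦR g)]
    refine hmono _ _ (hΦR _) (hRIa _ _ (hΦR f) (hΦR g)) fun q => ?_
    show σ (tr q.out (f + g)) ≤ σ (tr q.out f) + σ (tr q.out g)
    rw [tr_add]
    exact hσ.add _ _
  · intro f M hM
    show A (Φ f) ≤ M
    rw [← hA1 M]
    refine hmono _ _ (hΦR _) (hRI1 M) fun q => ?_
    show σ (tr q.out f) ≤ M * 1
    rw [mul_one]
    exact hσ.le _ _ fun x => hM _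
  · intro h f
    show A (Φ (tr h f)) = A (Φ f)
    rw [← hinv (QuotientGroup.mk h) (Φ f) (hΦR f)]
    congr 1
    funext q
    obtain ⟨k, rfl⟩ := QuotientGroup.mk_surjective q
    rw [← QuotientGroup.mk_mul, hΦ, hΦ, tr_mul]
  · intro p hp hσp
    have hle' : ∀ f q, Φ f q ≤ (p f • (1 : G ⧸ N → ℝ)) q := by
      intro f q
      show σ (tr q.out f) ≤ p f * 1
      rw [mul_one, ← hp q.out f]
      exact hσp _
    refine ⟨fun f => ?_, fun f hf => ?_⟩
    · show A (Φ f) ≤ p f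
      rw [← hA1 (p f)]
      exact hmono _ _ (hΦR _) (hRI1 _) (hle' f)
    · have hf : A (Φ f) = p f := hf
      have h1 := hdiff (Φ f) (p f • (1 : G ⧸ N → ℝ)) (hΦR f) (hRI1 _)
      rw [hA1, hf] at h1
      have h2 : A (p f • (1 : G ⧸ N → ℝ) - Φ f) = 0 := by linarith
      have h3 := hstr _ (hRIs _ _ (hΦR f) (hRI1 _)) (fun q => sub_nonneg.2 (hle' f q)) h2
        (QuotientGroup.mk 1)
      have h4 : p f * 1 - Φ f (QuotientGroup.mk 1) = 0 := h3
      rw [hΦ, tr_one] at h4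
      linarith

  · intro h f g
    show A (Φ (f + g)) = A (Φ f) + A (Φ g)
    rw [← hadd _ _ (hΦR f) (hΦR g)]
    congr 1
    funext q
    show σ (tr q.out (f + g)) = σ (tr q.out f) + σ (tr q.out g)
    rw [tr_add, h]
  · intro h c f
    show A (Φ (c • f)) = c * A (Φ f)
    rw [← hsmul c _ (hΦR f)]
    congr 1
    funext q
    show σ (tr q.out (c • f)) = c * σ (tr q.out f)
    rw [tr_smul, h]

/-- A measure is invariant if its integrals are. -/
theorem map_eq {G : Type u} [Group G] [TopologicalSpace G] {X : Type v}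
    [TopologicalSpace X] [CompactSpace X] [T2Space X] [MeasurableSpace X] [BorelSpace X]
    [MulAction G X] [ContinuousSMul G X] (ν : Measure X) [IsFiniteMeasure ν] [ν.Regular] (g : G)
    (h : ∀ f : C(X, ℝ), ∫ x, tr g f x ∂ν = ∫ x, f x ∂ν) : ν.map (fun x => g • x) = ν := by
  have hreg' : (ν.map fun x => g • x).Regular := Regular.map (Homeomorph.smul g)
  refine Measure.ext_of_integral_eq_on_compactlySupported fun f => ?_
  have hm : ∫ x, f x ∂(ν.map fun x => g • x) = ∫ x, f (g • x) ∂ν :=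
    integral_map (by
      have : Continuous fun x : X => g • x := by fun_prop
      exact this.aemeasurable) f.continuous.aestronglyMeasurable
  rw [hm]
  exact h f.toContinuousMap

/-- The theorem on invariant measures. -/
theorem space {G : Type u} [Group G] [TopologicalSpace G] [IsTopologicalGroup G]
    [LocallyCompactSpace G] [TotallyDisconnectedSpace G] [T2Space G] (P : Subgroup G) {C : Set G}
    (hC : IsCompact C) (hCP : ∀ g : G, ∃ c ∈ C, ∃ p ∈ P, g = c * p) {X : Type v}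
    [TopologicalSpace X] [CompactSpace X] [T2Space X] [MeasurableSpace X] [BorelSpace X]
    [MulAction G X] [ContinuousSMul G X] (hX : Tame G X)
    (μ : Measure X) [IsProbabilityMeasure μ] (hμ : ∀ p ∈ P, μ.map (fun x => p • x) = μ) :
    ∃ ν : Measure X, IsProbabilityMeasure ν ∧ ν.Regular ∧
      ∀ g : G, ν.map (fun x => g • x) = ν := by
  have hint : ∀ f : C(X, ℝ), Integrable (fun x => f x) μ := fun f =>
    f.continuous.integrable_of_hasCompactSupport (HasCompactSupport.of_compactSpace _)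
  have hadd : ∀ f g : C(X, ℝ), ∫ x, (f + g) x ∂μ = ∫ x, f x ∂μ + ∫ x, g x ∂μ := fun f g =>
    integral_add (hint f) (hint g)
  have hmul : ∀ (c : ℝ) (f : C(X, ℝ)), ∫ x, (c • f) x ∂μ = c * ∫ x, f x ∂μ := fun c f =>
    integral_const_mul _ _
  have hσ : SL fun f : C(X, ℝ) => ∫ x, f x ∂μ := by
    refine ⟨fun c _ f => hmul c f, fun f g => (hadd f g).le, fun f M hM => ?_⟩
    have h1 : ∫ x, f x ∂μ ≤ ∫ x, M ∂μ := integral_mono (hint _) (integrable_const _) hM
    simpa using h1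
  obtain ⟨p', hp', hinv, -, h1, h2⟩ := average P hC hCP hX hσ (by
    intro b hb f
    show ∫ x, f (b • x) ∂μ = ∫ x, f x ∂μ
    conv_rhs => rw [← hμ b hb]
    rw [integral_map (by
      have : Continuous fun x : X => b • x := by fun_prop
      exact this.aemeasurable) f.continuous.aestronglyMeasurable])
  obtain ⟨ν, hν1, hν2, hν⟩ := hp'.exists_measure (h1 hadd) (h2 hmul) (fun f => le_rfl)
  refine ⟨ν, hν1, hν2, fun g => map_eq ν g fun f => ?_⟩
  rw [hν, hν, hinv]

end Pool.Agent.Lib.MP7d449a.AM
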