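import Pool.Agent.Lib.MP_7d449a_al.GP.Defs
import Pool.Agent.Lib.MP_7d449a_al.Contr

/-!
# MP_7d449a_al, cocompact subgroups: Haar measure of uniscalar groups

If every element normalises a compact open subgroup then Haar measure is invariant under right
translations and inversion. This property passes to closed subgroups, and to quotients by normal
subgroups which contain the contraction groups of the elements which normalise no compact open
subgroup.
-/

set_option autoImplicit false

open Filter Topology MeasureTheory MeasureTheory.Measure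
open scoped Pointwise ENNReal NNReal

namespace Pool.Agent.Lib.MP7d449a.AM

open Pool.Agent.Lib.MP7d449a.GP

universe u

/-- Every element normalises a compact open subgroup. -/
def US (H : Type u) [Group H] [TopologicalSpace H] : Prop :=
  ∀ g : H, ∃ V : Subgroup H, CO V ∧ ∀ x ∈ V, g * x * g⁻¹ ∈ V ∧ g⁻¹ * x * g ∈ V

/-- Closed subgroups. -/
theorem US.sub {G : Type u} [Group G] [TopologicalSpace G] (hT : US G) (P : Subgroup G)
    (hP : IsClosed (P : Set G)) : US P := by
  intro g
  obtain ⟨V, ⟨hVo, hVc⟩, hV⟩ := hT g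
  refine ⟨V.subgroupOf P, ⟨?_, ?_⟩, ?_⟩
  · exact hVo.preimage continuous_subtype_val
  · exact hP.isClosedEmbedding_subtypeVal.isCompact_preimage hVc
  · intro x hx
    exact hV x hx

/-- Quotients. -/
theorem US.quo {G : Type u} [Group G] [TopologicalSpace G] [IsTopologicalGroup G]
    [LocallyCompactSpace G] [TotallyDisconnectedSpace G] [T2Space G] (N : Subgroup G) [N.Normal]
    (hN : ∀ g : G, (∃ V : Subgroup G, CO V ∧ ∀ x ∈ V, g * x * g⁻¹ ∈ V ∧ g⁻¹ * x * g ∈ V) ∨
      (con g ⊆ N ∧ con g⁻¹ ⊆ N)) : US (G ⧸ N) := by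
  intro gq
  obtain ⟨g, rfl⟩ := QuotientGroup.mk_surjective gq
  have hc : Continuous (QuotientGroup.mk : G → G ⧸ N) := continuous_quotient_mk'
  have key : ∀ V : Subgroup G, IsOpen (V : Set G) → IsCompact (V : Set G) →
      (∀ x ∈ V, (QuotientGroup.mk (g * x * g⁻¹) : G ⧸ N) ∈ V.map (QuotientGroup.mk' N) ∧
        (QuotientGroup.mk (g⁻¹ * x * g) : G ⧸ N) ∈ V.map (QuotientGroup.mk' N)) →
      ∃ V : Subgroup (G ⧸ N), CO V ∧ ∀ x ∈ V, (QuotientGroup.mk g : G ⧸ N) * x *
        (QuotientGroup.mk g : G ⧸ N)⁻¹ ∈ V ∧ (QuotientGroup.mk g : G ⧸ N)⁻¹ * x *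
        (QuotientGroup.mk g : G ⧸ N) ∈ V := by
    intro V hVo hVc hV
    have himg : ((V.map (QuotientGroup.mk' N) : Subgroup (G ⧸ N)) : Set (G ⧸ N)) =
        (QuotientGroup.mk : G → G ⧸ N) '' (V : Set G) := rfl
    refine ⟨V.map (QuotientGroup.mk' N), ⟨?_, ?_⟩, ?_⟩
    · rw [himg]
      exact QuotientGroup.isOpenMap_coe _ hVo
    · rw [himg]
      exact hVc.image hc
    · rintro _ ⟨v, hv, rfl⟩
      exact hV v hv
  rcases hN g with ⟨V, ⟨hVo, hVc⟩, hV⟩ | ⟨h1, h2⟩
  · exact key V hVo hVc fun x hx => ⟨⟨_, (hV x hx).1, rfl⟩, ⟨_, (hV x hx).2, rfl⟩⟩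
  · obtain ⟨U, hUo, hUc, -⟩ := vanDantzig (G := G) Filter.univ_mem
    obtain ⟨V, hVU, hVo, hV⟩ := normalised h1 h2 hUc hUo
    have hVc : IsCompact (V : Set G) :=
      hUc.of_isClosed_subset (Subgroup.isClosed_of_isOpen V hVo) hVU
    have hsup : ∀ y ∈ V ⊔ N, (y : G ⧸ N) ∈ V.map (QuotientGroup.mk' N) := by
      intro y hy
      rw [Subgroup.mem_sup_of_normal_right] at hy
      obtain ⟨v, hv, n, hn, rfl⟩ := hy
      refine ⟨v, hv, ?_⟩
      show ((v : G) : G ⧸ N) = ((v * n : G) : G ⧸ N)
      rw [QuotientGroup.eq, ← mul_assoc, inv_mul_cancel, one_mul]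
      exact hn
    refine key V hVo hVc fun x hx => ?_
    have hv' : x ∈ V ⊔ N := (le_sup_left : V ≤ V ⊔ N) hx
    constructor
    · have h1 := hsup _ (hV 1 x hv')
      rwa [zpow_one] at h1
    · have h1 := hsup _ (hV (-1) x hv')
      rwa [zpow_neg, zpow_one, inv_inv] at h1

variable {H : Type u} [Group H] [TopologicalSpace H] [IsTopologicalGroup H]
  [LocallyCompactSpace H] [MeasurableSpace H] [BorelSpace H]

theorem right_inv (hT : US H) : (haar : Measure H).IsMulRightInvariant := by
  constructor
  intro g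
  have hmap : map (fun x => x * g) (haar : Measure H)
      = haarScalarFactor (map (fun x => x * g) haar) (haar : Measure H) • haar := by
    have h1 : Regular (map (fun x => x * g) (haar : Measure H)) :=
      Regular.map (Homeomorph.mulRight g)
    have h2 : IsMulLeftInvariant (map (fun x => x * g) (haar : Measure H)) := by
      infer_instance
    have h3 : IsFiniteMeasureOnCompacts (map (fun x => x * g) (haar : Measure H)) := by
      infer_instance
    exact isMulLeftInvariant_eq_smul_of_regular _ _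
  obtain ⟨V, ⟨hVo, hVc⟩, hV⟩ := hT g
  have hpos : (haar : Measure H) V ≠ 0 := (hVo.measure_pos haar ⟨1, V.one_mem⟩).ne'
  have hfin : (haar : Measure H) V ≠ ∞ := hVc.measure_lt_top.ne
  have hset : (fun x => x * g) ⁻¹' (V : Set H) = (fun x => g * x) ⁻¹' (V : Set H) := by
    ext x
    simp only [Set.mem_preimage, SetLike.mem_coe]
    constructor
    · intro h
      have := (hV _ h).1
      have e : g * (x * g) * g⁻¹ = g * x := by group
      rwa [e] at this
    · intro h
      have := (hV _ h).2
      have e : g⁻¹ * (g * x) * g = x * g := by group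
      rwa [e] at this
  have hval : map (fun x => x * g) (haar : Measure H) V = (haar : Measure H) V := by
    rw [map_apply (measurable_mul_const g) hVo.measurableSet, hset, measure_preimage_mul]
  have hc : haarScalarFactor (map (fun x => x * g) haar) (haar : Measure H) = 1 := by
    rw [hmap] at hval
    have h4 : (haarScalarFactor (map (fun x => x * g) haar) (haar : Measure H) : ℝ≥0∞)
        * (haar : Measure H) V = 1 * (haar : Measure H) V := by
      rw [one_mul]
      exact hval
    have h5 := (ENNReal.mul_left_inj hpos hfin).1 h4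
    exact_mod_cast h5
  rw [hmap, hc, one_smul]

theorem inv_inv' (hT : US H) : (haar : Measure H).IsInvInvariant := by
  have hr : (haar : Measure H).IsMulRightInvariant := right_inv hT
  constructor
  let μ : Measure H := haar
  have h1 : Regular μ.inv := Regular.map (Homeomorph.inv H)
  have h3 : IsFiniteMeasureOnCompacts μ.inv := by infer_instance
  let c : ℝ≥0∞ := haarScalarFactor μ.inv μ
  have hc : μ.inv = c • μ := isMulLeftInvariant_eq_smul_of_regular μ.inv μ
  have : map Inv.inv (map Inv.inv μ) = c ^ 2 • μ := by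
    rw [← inv_def μ, hc, Measure.map_smul, ← inv_def μ, hc, smul_smul, pow_two]
  have μeq : μ = c ^ 2 • μ := by
    rw [map_map continuous_inv.measurable continuous_inv.measurable] at this
    simpa only [inv_involutive, Function.Involutive.comp_self, Measure.map_id]
  obtain ⟨V, ⟨hVo, hVc⟩, -⟩ := hT 1
  have hpos : μ V ≠ 0 := (hVo.measure_pos haar ⟨1, V.one_mem⟩).ne'
  have hfin : μ V ≠ ∞ := hVc.measure_lt_top.ne
  have : c ^ 2 * μ V = 1 ^ 2 * μ V := by
    conv_rhs => rw [μeq]
    simp
  have : c ^ 2 = 1 ^ 2 := (ENNReal.mul_left_inj hpos hfin).1 this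
  have : c = 1 := (ENNReal.pow_right_strictMono two_ne_zero).injective this
  rw [hc, this, one_smul]

end Pool.Agent.Lib.MP7d449a.AM
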